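import Pool.Agent.Run7.h172.Nil.Stm
import Pool.Agent.Run7.h172.Npp.PD
import Pool.Agent.Helper44K9.FN.Lsn
import Pool.Agent.Helper44K9.FN.Eqn

/-! # Piece ONE: one length of the windows, two-step nilsequences -/

set_option autoImplicit false

namespace Pool.Agent.Run7.h172.Nil

open Finset Polynomial MeasureTheory Filter Topology
open Pool.Agent.H807R2.Dav (ee)
open Pool.Agent.Helper44K9.FU (Mul1 Rel S_CHB)
open Pool.Agent.Helper44K9.FB (lf)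
open Pool.Agent.Helper44K9.FN (Clos cw pw Cl Tg Th Rl Box dt fr md S_RED S_VDC Irr)
open Pool.Agent.Helper44K9.FN.InvL (col exists_col)
open Pool.Agent.Helper44K9.FN.LsnL (dil_seq prod_seq deg_sub)
open Pool.Agent.Helper44K9.FN.EqnL (lf_cont lf_md Bx mem_Bx dt_fr)
open Pool.Agent.Run7.h172.Npp (QB mem_QB QB_large S_RD S_LD)

open Classical in
/-- few pairs with a bad first member -/
lemma bad_pairs {Q : Finset ℕ} {D : Finset (ℕ × ℕ)} (hD : D ⊆ Q ×ˢ Q) (bad : ℕ → ℕ → Prop) {η : ℝ}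
    (hbad : ∀ q ∈ Q, (∃ p, (p, q) ∈ D) → ((Q.filter (fun p => bad p q)).card : ℝ) ≤ η * (Q.card : ℝ)) (hη : 0 ≤ η) :
    ((D.filter (fun pq => bad pq.1 pq.2)).card : ℝ) ≤ η * (Q.card : ℝ) ^ 2 := by
  have h1 : ((D.filter (fun pq => bad pq.1 pq.2)).card : ℝ) =
      ∑ q ∈ Q, (((D.filter (fun pq => bad pq.1 pq.2)).filter (fun pq => pq.2 = q)).card : ℝ) := by
    have := card_eq_sum_card_fiberwise (s := D.filter (fun pq => bad pq.1 pq.2)) (t := Q) (f := fun pq => pq.2)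
      (fun pq hpq => (mem_product.1 (hD (mem_filter.1 hpq).1)).2)
    rw [this]
    push_cast
    rfl
  rw [h1]
  calc ∑ q ∈ Q, (((D.filter (fun pq => bad pq.1 pq.2)).filter (fun pq => pq.2 = q)).card : ℝ) ≤
      ∑ q ∈ Q, η * (Q.card : ℝ) := by
        refine sum_le_sum fun q hq => ?_
        by_cases hex : ∃ p, (p, q) ∈ D
        · refine le_trans ?_ (hbad q hq hex)
          refine Nat.cast_le.2 (card_le_card_of_injOn (fun pq => pq.1) ?_ ?_)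
          · intro pq hpq
            rw [mem_coe, mem_filter, mem_filter] at hpq
            obtain ⟨⟨h2, h3⟩, h4⟩ := hpq
            rw [mem_coe, mem_filter]
            exact ⟨(mem_product.1 (hD h2)).1, by rw [← h4]; exact h3⟩
          · intro x hx y hy hxy
            rw [mem_coe, mem_filter] at hx hy
            exact Prod.ext hxy (hx.2.trans hy.2.symm)
        · have : ((D.filter (fun pq => bad pq.1 pq.2)).filter (fun pq => pq.2 = q)) = ∅ := by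
            rw [eq_empty_iff_forall_notMem]
            rintro ⟨p, q'⟩ h
            rw [mem_filter, mem_filter] at h
            obtain ⟨⟨h2, -⟩, h3⟩ := h
            simp only at h3
            rw [h3] at h2
            exact hex ⟨p, h2⟩
          rw [this, card_empty, Nat.cast_zero]
          positivity
    _ = η * (Q.card : ℝ) ^ 2 := by rw [sum_const, nsmul_eq_mul]; ring

open Classical in
/-- one of finitely many colours is frequent -/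
lemma colour {ι κ : Type} (D : Finset ι) (J : Finset κ) (r : ι → κ → Prop) (hr : ∀ x ∈ D, ∃ c ∈ J, r x c) {a : ℝ}
    (ha : a ≤ (D.card : ℝ)) (ha0 : 0 < a) : ∃ c ∈ J, a / (J.card : ℝ) ≤ ((D.filter (fun x => r x c)).card : ℝ) := by
  have hD : D.Nonempty := by
    rw [← card_pos]
    have : (0 : ℝ) < D.card := lt_of_lt_of_le ha0 ha
    exact_mod_cast this
  obtain ⟨x0, hx0⟩ := hD
  obtain ⟨c0, hc0, -⟩ := hr x0 hx0
  have hJ : (0 : ℝ) < J.card := by exact_mod_cast card_pos.2 ⟨c0, hc0⟩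
  by_contra hcon
  push Not at hcon
  have h1 : (D.card : ℝ) ≤ ∑ c ∈ J, ((D.filter (fun x => r x c)).card : ℝ) := by
    have : D ⊆ J.biUnion (fun c => D.filter (fun x => r x c)) := by
      intro x hx
      obtain ⟨c, hc, hrc⟩ := hr x hx
      exact mem_biUnion.2 ⟨c, hc, mem_filter.2 ⟨hx, hrc⟩⟩
    have h2 := (card_le_card this).trans card_biUnion_le
    exact_mod_cast h2
  have h2 : ∑ c ∈ J, ((D.filter (fun x => r x c)).card : ℝ) < ∑ c ∈ J, a / (J.card : ℝ) :=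
    sum_lt_sum_of_nonempty ⟨c0, hc0⟩ fun c hc => hcon c hc
  rw [sum_const, nsmul_eq_mul, mul_div_cancel₀ _ hJ.ne'] at h2
  linarith

/-- the frequencies of a sequence of the class -/
lemma pw_dil (hRED : S_RED) {d : ℕ} {b : Matrix (Fin d) (Fin d) ℤ} {φ : (Fin d → ℝ) → ℂ} (hφ : Th b φ)
    {α β x y : Fin d → ℝ} {P P' : ℝ[X]} (hP : P.natDegree ≤ 2) (hP' : P'.natDegree ≤ 2) {ψ ψ' : ℕ → ℂ}
    (h1 : ∀ m : ℕ, ψ m = ee (P.eval (m : ℝ)) * φ ((m : ℝ) • α + x))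
    (h2 : ∀ m : ℕ, ψ' m = ee (P'.eval (m : ℝ)) * φ ((m : ℝ) • β + y)) (p q m h : ℕ) :
    ∃ R : ℝ[X], R.natDegree ≤ 2 ∧ pw (fun x => ψ (p * x)) (fun x => ψ' (q * x)) m h =
      ‖∑ t ∈ Ioc m (m + h), ee (R.eval (t : ℝ)) * φ ((t : ℝ) • fr ((p : ℝ) • α) + x) *
      (starRingEnd ℂ) (φ ((t : ℝ) • fr ((q : ℝ) • β) + y))‖ := by
  obtain ⟨P1, hP1, e1⟩ := dil_seq hRED hφ α x P hP p
  obtain ⟨P2, hP2, e2⟩ := dil_seq hRED hφ β y P' hP' q
  refine ⟨P1 - P2, deg_sub hP1 hP2, ?_⟩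
  unfold pw
  congr 1
  refine sum_congr rfl fun t _ => ?_
  show ψ (p * t) * (starRingEnd ℂ) (ψ' (q * t)) = _
  rw [h1, h2, e1, e2]
  exact prod_seq _ _ _ _ _

open Classical in
/-- **[ONE]** -/
theorem one_of (hPDA : S_PDA) (hRED : S_RED) (hVDC : S_VDC) (hINVK : S_INVK) (hCNT : S_CNT) (hGRN : S_GRN)
    (hRD : S_RD) (hLD : S_LD) (hCHB : S_CHB) : S_ONE := by
  intro d b φ hφ hb E hEc hEi hE0 ε hε
  obtain ⟨c, δ, hc, hδ, hP⟩ := hPDA (Cl φ Set.univ) (Pool.Agent.Helper44K9.FN.Cl_clos hφ) ε hε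
  obtain ⟨S, C', c', H₀, hC', hc', hV⟩ := hVDC d b φ hφ δ hδ
  obtain ⟨j, hj⟩ := exists_col b hb
  -- the exceptional primes
  have hE₁c : IsCompact (lf (col b j) '' E) := hEc.image (lf_cont _)
  obtain ⟨κ₀, hκ₀, kc, hcnt⟩ := hCNT (lf (col b j) '' E) hE₁c (by
    rintro _ ⟨x, hx, rfl⟩
    exact hEi _ hj x hx) ⌈4 / c'⌉₊ (c / 2) (by positivity)
  obtain ⟨K, H₁, hK1, hI⟩ := hINVK d b j S C' c' κ₀ hC' hc' hκ₀
  -- the colours
  set J : Finset ((Fin d → ℤ) × (Fin d → ℤ)) := Bx d K ×ˢ Bx d K with hJ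
  set Nc : ℝ := (J.card : ℝ) + 1 with hNc
  have hNc1 : 1 ≤ Nc := by rw [hNc]; have : (0 : ℝ) ≤ J.card := Nat.cast_nonneg _; linarith
  obtain ⟨c₂, hc₂⟩ : ∃ c₂ : ℝ, c₂ = min (c / 2 / Nc) 1 := ⟨_, rfl⟩
  have hc₂0 : 0 < c₂ := by rw [hc₂]; exact lt_min (by positivity) one_pos
  have hc₂1 : c₂ ≤ 1 := by rw [hc₂]; exact min_le_right _ _
  have hc₂2 : c₂ ≤ c / 2 / Nc := by rw [hc₂]; exact min_le_left _ _
  -- the set for LD
  set Es : Set UnitAddCircle := ⋃ ζ ∈ (Bx d K).filter (fun ζ => ζ ≠ 0), lf ζ '' E with hEs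
  have hEsc : IsCompact Es := by
    apply Finset.isCompact_biUnion
    intro ζ _
    exact hEc.image (lf_cont ζ)
  have hEs0 : volume Es = 0 := by
    refine le_antisymm ?_ (zero_le)
    have h1 : volume Es ≤ ∑ ζ ∈ (Bx d K).filter (fun ζ => ζ ≠ 0), volume (lf ζ '' E) :=
      measure_biUnion_finset_le _ _
    have h2 : ∑ ζ ∈ (Bx d K).filter (fun ζ => ζ ≠ 0), volume (lf ζ '' E) = 0 := by
      apply Finset.sum_eq_zero
      intro ζ hζ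
      exact hE0 ζ (mem_filter.1 hζ).2
    rw [h2] at h1
    exact h1
  have hEst : ∀ x ∈ Es, addOrderOf x = 0 := by
    intro x hx
    rw [hEs] at hx
    simp only [Set.mem_iUnion] at hx
    obtain ⟨ζ, hζ, y, hy, rfl⟩ := hx
    exact hEi ζ (mem_filter.1 hζ).2 y hy
  obtain ⟨τ, hτ, kL, hL⟩ := hLD 1 K le_rfl hK1 (c₂ ^ 2 / 8) (by positivity) Es hEsc hEs0 hEst
  obtain ⟨kq, hkq⟩ := QB_large hCHB (16 / c₂ ^ 2)
  obtain ⟨k1, h2⟩ := hP (max (max kL kq) (max kc (K ^ 3)))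
  obtain ⟨T, hT⟩ := hRD 1 K k1 le_rfl hK1
  obtain ⟨T', hT'⟩ := exists_nat_ge ((K : ℝ) / τ)
  obtain ⟨H, N0, hH, h3⟩ := h2 (T + T' + H₀ + H₁ + 1)
  refine ⟨H, N0, hH, fun N hN f hf => ?_⟩
  by_contra hcon
  push Not at hcon
  set B : Finset ℕ := (Icc 1 N).filter (fun n => ∃ ψ ∈ Cl φ (Tg E), ε * H ≤ cw f ψ n H) with hB
  have hex : ∀ n, ∃ (ψ : ℕ → ℂ) (α x : Fin d → ℝ) (P : ℝ[X]), n ∈ B → (α ∈ Tg E ∧ P.natDegree ≤ 2 ∧
      (∀ m : ℕ, ψ m = ee (P.eval (m : ℝ)) * φ ((m : ℝ) • α + x)) ∧ ε * H ≤ cw f ψ n H) := by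
    intro n
    by_cases hn : n ∈ B
    · obtain ⟨ψ, ⟨α, hα, x, P, hP2, hψ⟩, h4⟩ := (mem_filter.1 hn).2
      exact ⟨ψ, α, x, P, fun _ => ⟨hα, hP2, hψ, h4⟩⟩
    · exact ⟨0, 0, 0, 0, fun h => absurd h hn⟩
  choose ψ al xx PP hψ using hex
  obtain ⟨k, h, hk0, hk1, hh, ν, D, hD, hDc, hDr⟩ :=
    h3 N hN f hf ψ B (filter_subset _ _) hcon.le (fun n hn => ⟨⟨al n, trivial, xx n, PP n, (hψ n hn).2.1, (hψ n hn).2.2.1⟩,
      (hψ n hn).2.2.2⟩)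
  have hkL : kL ≤ k := le_trans (le_trans (le_max_left _ _) (le_max_left _ _)) hk0
  have hkq' : kq ≤ k := le_trans (le_trans (le_max_right _ _) (le_max_left _ _)) hk0
  have hkc : kc ≤ k := le_trans (le_trans (le_max_left _ _) (le_max_right _ _)) hk0
  have hkK : K ^ 3 ≤ k := le_trans (le_trans (le_max_right _ _) (le_max_right _ _)) hk0
  have hQ := hkq k hkq'
  obtain ⟨q, hq⟩ : ∃ q : ℝ, q = ((QB k).card : ℝ) := ⟨_, rfl⟩
  rw [← hq] at hQ hDc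
  have hq0 : 0 < q := lt_of_lt_of_le (by positivity) hQ
  have hh1 : (1 : ℝ) ≤ h := by exact_mod_cast (by omega : 1 ≤ h)
  -- the bad pairs
  set bad : ℕ → ℕ → Prop := fun p r => ∃ s : ℕ, 1 ≤ s ∧ s ≤ ⌈4 / c'⌉₊ ∧ ∃ a : ℤ,
    |s * (p * dt (col b j) (al (ν r))) - a| < κ₀ with hbad
  have hbadc : ((D.filter (fun pq => bad pq.1 pq.2)).card : ℝ) ≤ c / 2 * q ^ 2 := by
    rw [hq]
    refine bad_pairs hD bad (fun r hr hex => ?_) (by positivity)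
    obtain ⟨p, hp⟩ := hex
    have h4 := (hDr (p, r) hp).2.1
    refine hcnt k hkc (dt (col b j) (al (ν r))) ?_
    rw [← lf_md]
    exact ⟨md (al (ν r)), (hψ _ h4).1.2, rfl⟩
  set D' : Finset (ℕ × ℕ) := D.filter (fun pq => ¬ bad pq.1 pq.2) with hD'
  have hD'c : c / 2 * q ^ 2 ≤ (D'.card : ℝ) := by
    have h4 := card_filter_add_card_filter_not (s := D) (fun pq : ℕ × ℕ => bad pq.1 pq.2)
    have h5 : ((D.filter (fun pq : ℕ × ℕ => bad pq.1 pq.2)).card : ℝ) + (D'.card : ℝ) = (D.card : ℝ) := by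
      exact_mod_cast h4
    have h6 : c * q ^ 2 = c / 2 * q ^ 2 + c / 2 * q ^ 2 := by ring
    linarith
  -- the relation of a good pair
  have hrel : ∀ pq ∈ D', ∃ ζ ∈ J, (ζ.1 ≠ 0 ∧ ∃ a : ℤ,
      |(pq.1 : ℝ) * dt ζ.1 (al (ν pq.2)) - (pq.2 : ℝ) * dt ζ.2 (al (ν pq.1)) - a| ≤ K / h) := by
    intro pq hpq
    rw [hD', mem_filter] at hpq
    obtain ⟨hpD, hnb⟩ := hpq
    obtain ⟨hB1, hB2, m, hpw⟩ := hDr pq hpD
    obtain ⟨R, hR2, hR⟩ := pw_dil hRED hφ (hψ _ hB2).2.1 (hψ _ hB1).2.1 (hψ _ hB2).2.2.1 (hψ _ hB1).2.2.1 pq.1 pq.2 m h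
    rw [hR] at hpw
    have h4 := hV h (by omega) m _ _ _ _ R hR2 hpw
    obtain ⟨ζ, ζ', hζ0, hζ, hζ', a, ha⟩ := hI h (by omega) _ (Pool.Agent.Helper44K9.FN.EqnL.fr_box _) _
      (Pool.Agent.Helper44K9.FN.EqnL.fr_box _) (by
        intro s hs1 hs2 a
        by_contra hlt
        push Not at hlt
        obtain ⟨i, hi⟩ := dt_fr (col b j) (pq.1 : ℝ) (al (ν pq.2))
        apply hnb
        refine ⟨s, hs1, hs2, a + s * i, ?_⟩
        have e1 : (s : ℝ) * (pq.1 * dt (col b j) (al (ν pq.2))) - ((a + s * i : ℤ) : ℝ) =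
            s * dt (col b j) (fr ((pq.1 : ℝ) • al (ν pq.2))) - a := by
          rw [hi]; push_cast; ring
        rw [e1]
        exact hlt) h4
    obtain ⟨i, hi⟩ := dt_fr ζ (pq.1 : ℝ) (al (ν pq.2))
    obtain ⟨i', hi'⟩ := dt_fr ζ' (pq.2 : ℝ) (al (ν pq.1))
    refine ⟨(ζ, ζ'), mem_product.2 ⟨mem_Bx hζ, mem_Bx hζ'⟩, hζ0, a + i - i', ?_⟩
    rw [hi, hi'] at ha
    have e1 : (pq.1 : ℝ) * dt ζ (al (ν pq.2)) - (pq.2 : ℝ) * dt ζ' (al (ν pq.1)) - ((a + i - i' : ℤ) : ℝ) =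
        (pq.1 : ℝ) * dt ζ (al (ν pq.2)) - i - ((pq.2 : ℝ) * dt ζ' (al (ν pq.1)) - i') - a := by
      push_cast; ring
    rw [e1]
    exact ha
  obtain ⟨⟨ζ, ζ'⟩, hζJ, hζc⟩ := colour D' J (fun pq ζ => ζ.1 ≠ 0 ∧ ∃ a : ℤ,
      |(pq.1 : ℝ) * dt ζ.1 (al (ν pq.2)) - (pq.2 : ℝ) * dt ζ.2 (al (ν pq.1)) - a| ≤ K / h) hrel hD'c (by positivity)
  simp only at hζc
  -- the graph
  obtain ⟨G, hG⟩ : ∃ G : ℕ → ℕ → Prop, ∀ p r, G p r ↔ ((ν r ∈ B) ∧ ζ ≠ 0 ∧ ∃ a : ℤ,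
      |(p : ℝ) * dt ζ (al (ν r)) - (r : ℝ) * dt ζ' (al (ν p)) - a| ≤ K / h) := ⟨_, fun _ _ => Iff.rfl⟩
  have hGc : c₂ * q ^ 2 ≤ (((QB k ×ˢ QB k).filter (fun pq : ℕ × ℕ => G pq.1 pq.2)).card : ℝ) := by
    have h4 : c₂ * q ^ 2 ≤ c / 2 * q ^ 2 / (J.card : ℝ) := by
      have hJ0 : (0 : ℝ) < J.card := by exact_mod_cast card_pos.2 ⟨_, hζJ⟩
      calc c₂ * q ^ 2 ≤ c / 2 / Nc * q ^ 2 := mul_le_mul_of_nonneg_right hc₂2 (by positivity)
        _ ≤ c / 2 / (J.card : ℝ) * q ^ 2 := by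
            apply mul_le_mul_of_nonneg_right _ (by positivity)
            exact div_le_div_of_nonneg_left (by positivity) hJ0 (by rw [hNc]; linarith)
        _ = _ := by ring
    refine h4.trans (hζc.trans ?_)
    refine Nat.cast_le.2 (card_le_card ?_)
    intro pq hpq
    rw [mem_filter, hD', mem_filter] at hpq
    obtain ⟨⟨h5, -⟩, h6⟩ := hpq
    rw [mem_filter, hG]
    exact ⟨hD h5, (hDr pq h5).2.1, h6⟩
  rw [hq] at hGc
  obtain ⟨p0, hp0, p1, hp1, hne, hWc⟩ := hGRN (QB k) G c₂ hc₂0 hc₂1 (le_trans (by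
    apply div_le_div_of_nonneg_right _ (by positivity); norm_num) (hQ.trans hq.le)) hGc
  set W : Finset ℕ := (QB k).filter (fun r => r ≠ p0 ∧ r ≠ p1 ∧ G p0 r ∧ G p1 r) with hW
  have hWQ : W ⊆ QB k := filter_subset _ _
  have hW0 : p0 ∉ W := fun h => (mem_filter.1 h).2.1 rfl
  have hW1 : p1 ∉ W := fun h => (mem_filter.1 h).2.2.1 rfl
  have hW2 : 2 ≤ W.card := by
    have a1 : (2 : ℝ) ≤ c₂ ^ 2 / 8 * q := by
      have := mul_le_mul_of_nonneg_left hQ (show (0 : ℝ) ≤ c₂ ^ 2 / 8 by positivity)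
      refine le_trans (le_of_eq ?_) this
      field_simp
      norm_num
    rw [hq] at a1
    have a2 : (2 : ℝ) ≤ W.card := a1.trans hWc
    exact_mod_cast a2
  -- the frequencies
  obtain ⟨αt, hαt⟩ : ∃ αt : ℕ → ℝ, αt = fun r => if r = p0 ∨ r = p1 then dt ζ' (al (ν r)) else dt ζ (al (ν r)) :=
    ⟨_, rfl⟩
  have hαp0 : αt p0 = dt ζ' (al (ν p0)) := by rw [hαt]; simp
  have hαp1 : αt p1 = dt ζ' (al (ν p1)) := by rw [hαt]; simp
  have hαW : ∀ r ∈ W, αt r = dt ζ (al (ν r)) := by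
    intro r hr
    have h4 := (mem_filter.1 hr).2
    rw [hαt]
    simp [h4.1, h4.2.1]
  have hWrel : ∀ r ∈ W, Rel 1 K h ((p0 : ℝ) ^ 1 * αt r) ((r : ℝ) ^ 1 * αt p0) ∧
      Rel 1 K h ((p1 : ℝ) ^ 1 * αt r) ((r : ℝ) ^ 1 * αt p1) := by
    intro r hr
    have h4 := (mem_filter.1 hr).2
    rw [hG, hG] at h4
    rw [hαW r hr, hαp0, hαp1]
    refine ⟨?_, ?_⟩
    · obtain ⟨-, -, a, ha⟩ := h4.2.2.1
      refine ⟨1, le_rfl, hK1, a, ?_⟩
      simpa using ha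
    · obtain ⟨-, -, a, ha⟩ := h4.2.2.2
      refine ⟨1, le_rfl, hK1, a, ?_⟩
      simpa using ha
  obtain ⟨β, hβ⟩ := hT h (by omega) k hk1 (hkK.trans (Nat.lt_two_pow_self).le) αt p0 p1 hp0 hp1 hne W hWQ hW0 hW1 hW2 hWrel
  have hfin := hL k hkL β W hWQ (fun r hr => by
    obtain ⟨m, hm1, hm2, a, ha⟩ := hβ r hr
    have h4 := (mem_filter.1 hr).2.2.2.1
    rw [hG] at h4
    refine ⟨αt r, ?_, m, hm1, hm2, -a, ?_⟩
    · rw [hαW r hr, ← lf_md, hEs]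
      simp only [Set.mem_iUnion]
      exact ⟨ζ, mem_filter.2 ⟨(mem_product.1 hζJ).1, h4.2.1⟩, md (al (ν r)), (hψ _ h4.1).1.2, rfl⟩
    · have e1 : (m : ℝ) * (αt r - (r : ℝ) ^ 1 * β) - ((-a : ℤ) : ℝ) = -(m * ((r : ℝ) ^ 1 * β - αt r) - a) := by
        push_cast; ring
      rw [e1, abs_neg]
      refine ha.trans ?_
      rw [div_le_iff₀ (by positivity), pow_one]
      rw [div_le_iff₀ hτ] at hT'
      have a2 : (T' : ℝ) ≤ h := by exact_mod_cast (by omega : T' ≤ h)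
      calc (K : ℝ) ≤ T' * τ := hT'
        _ ≤ h * τ := mul_le_mul_of_nonneg_right a2 hτ.le
        _ = _ := mul_comm _ _)
  linarith

end Pool.Agent.Run7.h172.Nil
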