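import Pool.Agent.Run7.h172.Nil.PDA
import Pool.Agent.Run7.h172.Nil.One
import Pool.Agent.Run7.h172.Npp.All
import Pool.Agent.Run7.h304.Nil.CNT
import Pool.Agent.Run7.h48.Nil.ALLN
import Pool.Agent.Run7.h48.Nil.ASMN
import Pool.Agent.Run7.h803.Nil.INVK
import Pool.Agent.Run7.h888.Nil.TUG
import Pool.Agent.Helper44K9.FN.Red
import Pool.Agent.Helper44K9.FN.Aff
import Pool.Agent.Helper44K9.FN.Tru
import Pool.Agent.Helper44K9.FN.Vdc
import Pool.Agent.Helper44K9.FN.Pusha
import Pool.Agent.Helper44K9.FN.Besa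

/-! # Project NIL: assembly -/

set_option autoImplicit false

namespace Pool.Agent.Run7.h172.Nil

open Finset Polynomial MeasureTheory Filter Topology
open Pool.Agent.Helper44K9.FN (besa pusha red vdc tru aff)
open Pool.Agent.Helper44K9.FU (tk chb)

theorem pda : S_PDA := pda_of Pool.Agent.Run7.h888.Nil.p_TU (pusha tk) besa

theorem one : S_ONE :=
  one_of pda red (vdc tru) (Pool.Agent.Run7.h803.Nil.invk aff) Pool.Agent.Run7.h304.Nil.cnt
    Pool.Agent.Run7.h888.Nil.p_GRN Pool.Agent.Run7.h811.Npp.rd Pool.Agent.Run7.h172.Npp.ld_all chb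

/-- natural averages for the nonzero vertical characters -/
theorem vpn : S_VPN := by
  intro d b φ hφ hb E hEc hEi hE0
  refine Pool.Agent.Run7.h48.Nil.ALLN.alln _ (fun ψ hψ m => Pool.Agent.Helper44K9.FN.Cl_bdd hφ.2.1 hψ m) ?_
  exact one d b φ hφ hb E hEc hEi hE0

/-- **natural averages for two-step nilmanifolds** -/
theorem nil_natural : S_ASMN := Pool.Agent.Run7.h48.Nil.ASMN.asmn vpn

end Pool.Agent.Run7.h172.Nil
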