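import Pool.Agent.Run7.h172.Nil.PDAa
import Pool.Agent.Helper44K9.FN.Besa
import Pool.Agent.Helper44K9.FU.Tk

/-! # Piece PDA -/

set_option autoImplicit false

namespace Pool.Agent.Run7.h172.Nil

open Finset Polynomial MeasureTheory Filter Topology
open Pool.Agent.H807R2.Dav (ee)
open Pool.Agent.Helper44K9.FU (Mul1)
open Pool.Agent.Helper44K9.FN (Clos cw pw S_PUSHA S_BESA)
open Pool.Agent.Run7.h172.Npp (QB bs bs_of bs_spec bs_mid mem_QB blow)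

/-- the correlation of a sequence with itself -/
lemma pw_self {f ψ : ℕ → ℂ} (hf : ∀ n, ‖f n‖ ≤ 1) {t : ℝ} (ht : 0 ≤ t) {m h : ℕ} (hh : 1 ≤ h)
    (hc : t * h ≤ cw f ψ m h) : t ^ 2 * h ≤ pw ψ ψ m h := by
  have hhr : (0 : ℝ) < h := by exact_mod_cast hh
  have h1 : cw f ψ m h ≤ ∑ x ∈ Ioc m (m + h), ‖ψ x‖ := by
    unfold cw
    refine (norm_sum_le _ _).trans (sum_le_sum fun x _ => ?_)
    rw [norm_mul]
    calc ‖f x‖ * ‖ψ x‖ ≤ 1 * ‖ψ x‖ := mul_le_mul_of_nonneg_right (hf x) (norm_nonneg _)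
      _ = _ := one_mul _
  have h2 : pw ψ ψ m h = ∑ x ∈ Ioc m (m + h), ‖ψ x‖ ^ 2 := by
    unfold pw
    have e1 : ∑ x ∈ Ioc m (m + h), ψ x * (starRingEnd ℂ) (ψ x) = ((∑ x ∈ Ioc m (m + h), ‖ψ x‖ ^ 2 : ℝ) : ℂ) := by
      push_cast
      refine sum_congr rfl fun x _ => ?_
      rw [Complex.mul_conj, Complex.normSq_eq_norm_sq]
      push_cast
      rfl
    rw [e1, Complex.norm_real, Real.norm_of_nonneg (sum_nonneg fun _ _ => by positivity)]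
  have h3 : (∑ x ∈ Ioc m (m + h), ‖ψ x‖) ^ 2 ≤ h * ∑ x ∈ Ioc m (m + h), ‖ψ x‖ ^ 2 := by
    have := sq_sum_le_card_mul_sum_sq (s := Ioc m (m + h)) (f := fun x => ‖ψ x‖)
    rwa [Nat.card_Ioc, Nat.add_sub_cancel_left] at this
  rw [h2]
  have h4 : (t * h) ^ 2 ≤ h * ∑ x ∈ Ioc m (m + h), ‖ψ x‖ ^ 2 :=
    le_trans (pow_le_pow_left₀ (by positivity) (hc.trans h1) 2) h3
  have h5 : (h : ℝ) * (t ^ 2 * h) ≤ h * ∑ x ∈ Ioc m (m + h), ‖ψ x‖ ^ 2 := by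
    refine le_trans (le_of_eq ?_) h4; ring
  exact le_of_mul_le_mul_left h5 hhr

lemma pw_symm' (ψ ψ' : ℕ → ℂ) (n H : ℕ) : pw ψ ψ' n H = pw ψ' ψ n H := by
  unfold pw
  rw [← RCLike.norm_conj (∑ m ∈ Ioc n (n + H), ψ' m * (starRingEnd ℂ) (ψ m)), map_sum]
  congr 1
  refine sum_congr rfl fun m _ => ?_
  rw [map_mul, Complex.conj_conj, mul_comm]

open Classical in
/-- related pairs at one window -/
lemma pairsA (hTU : S_TU) {t : ℝ} (ht : 0 < t) {R : ℕ} (hR : ∀ f : ℕ → ℂ, (∀ n, ‖f n‖ ≤ 1) →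
    ∀ (n H r : ℕ) (ψ : Fin r → ℕ → ℂ), 1 ≤ H → (∀ i m, ‖ψ i m‖ ≤ 1) → (∀ i, t * H ≤ cw f (ψ i) n H) →
    (∀ i j, i ≠ j → pw (ψ i) (ψ j) n H ≤ t ^ 2 / 4 * H) → r ≤ R)
    {f : ℕ → ℂ} (hf : ∀ n, ‖f n‖ ≤ 1) {m h : ℕ} (hh : 1 ≤ h) (Q : ℕ → ℕ → ℂ) (G : Finset ℕ)
    (hG : ∀ p ∈ G, (∀ x, ‖Q p x‖ ≤ 1) ∧ t * h ≤ cw f (Q p) m h) :
    ∃ Pm : Finset (ℕ × ℕ), (∀ pq ∈ Pm, pq.1 ∈ G ∧ pq.2 ∈ G ∧ t ^ 2 / 4 * h ≤ pw (Q pq.1) (Q pq.2) m h) ∧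
      (G.card : ℝ) ^ 2 ≤ (R : ℝ) * (Pm.card : ℝ) := by
  have h1 := hTU G (fun p q => t ^ 2 / 4 * h < pw (Q p) (Q q) m h) (fun p q h => by rw [pw_symm']; exact h) R (by
    intro U hU hind
    refine hR f hf m h U.card (fun i => Q (U.equivFin.symm i)) hh (fun i x => (hG _ (hU (U.equivFin.symm i).2)).1 x)
      (fun i => (hG _ (hU (U.equivFin.symm i).2)).2) ?_
    intro i j hij
    refine not_lt.1 (hind _ (U.equivFin.symm i).2 _ (U.equivFin.symm j).2 ?_)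
    intro h1
    exact hij (U.equivFin.symm.injective (Subtype.ext h1)))
  refine ⟨_, ?_, by exact_mod_cast h1⟩
  intro pq hpq
  rw [mem_filter, mem_product] at hpq
  obtain ⟨hpG, h3⟩ := hpq
  refine ⟨hpG.1, hpG.2, ?_⟩
  rcases h3 with h3 | h3
  · rw [← h3]
    have h4 := pw_self hf ht.le hh (hG _ hpG.1).2
    refine le_trans ?_ h4
    have : (0 : ℝ) ≤ t ^ 2 * h := by positivity
    linarith
  · exact h3.le

open Classical in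
/-- a number `z` with many related pairs -/
lemma exists_zA (hTU : S_TU) {t : ℝ} (ht : 0 < t) {R : ℕ} (hR0 : 1 ≤ R) (hR : ∀ f : ℕ → ℂ, (∀ n, ‖f n‖ ≤ 1) →
    ∀ (n H r : ℕ) (ψ : Fin r → ℕ → ℂ), 1 ≤ H → (∀ i m, ‖ψ i m‖ ≤ 1) → (∀ i, t * H ≤ cw f (ψ i) n H) →
    (∀ i j, i ≠ j → pw (ψ i) (ψ j) n H ≤ t ^ 2 / 4 * H) → r ≤ R)
    {f : ℕ → ℂ} (hf : ∀ n, ‖f n‖ ≤ 1) (P : ℕ → ℕ → ℂ) {c1 : ℝ} (hc1 : 0 < c1) {H s h M k : ℕ}
    (hH : 0 < H) (S : Finset ℕ) (hSs : ∀ n ∈ S, (n + s) % H = 0) (hSP : ∀ n ∈ S, ∀ x, ‖P n x‖ ≤ 1) (hh : 1 ≤ h)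
    (hM : 0 < M)
    (Gm : ℕ → Finset ℕ) (hGm : ∀ m, ∀ p ∈ Gm m, p ∈ QB k ∧ bs H s (p * m) ∈ S ∧
        bs H s (p * m + (p - 1)) = bs H s (p * m) ∧ t * h ≤ cw f (dl p (P (bs H s (p * m)))) m h)
    (hdens : c1 * (M : ℝ) * ((QB k).card : ℝ) ≤ ∑ m ∈ range M, ((Gm m).card : ℝ)) :
    ∃ (z : ℕ) (E : ℕ → ℕ → Prop), (∀ p q, E p q ↔ ((bs H s (z / q) ∈ S ∧ bs H s (z / p) ∈ S) ∧
        ∃ m, t ^ 2 / 4 * h ≤ pw (dl p (P (bs H s (z / q)))) (dl q (P (bs H s (z / p)))) m h)) ∧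
      c1 ^ 2 / (4 * R) * ((QB k).card : ℝ) ^ 2 ≤
        (((QB k ×ˢ QB k).filter (fun pq => E pq.1 pq.2)).card : ℝ) := by
  choose Pm hPm1 hPm2 using fun m => pairsA hTU ht hR hf hh (fun p => dl p (P (bs H s (p * m)))) (Gm m) (m := m)
    (fun p hp => ⟨fun x => hSP _ (hGm m p hp).2.1 _, (hGm m p hp).2.2.2⟩)
  have hR0 : (0 : ℝ) < R := by exact_mod_cast hR0
  have hMr : (0 : ℝ) < M := by exact_mod_cast hM
  obtain ⟨E, hE⟩ : ∃ E : ℕ → ℕ → ℕ → Prop, ∀ z p q, E z p q ↔ ((bs H s (z / q) ∈ S ∧ bs H s (z / p) ∈ S) ∧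
        ∃ m, t ^ 2 / 4 * h ≤ pw (dl p (P (bs H s (z / q)))) (dl q (P (bs H s (z / p)))) m h) :=
    ⟨_, fun _ _ _ => Iff.rfl⟩
  suffices hsuf : ∃ z, c1 ^ 2 / (4 * (R : ℝ)) * ((QB k).card : ℝ) ^ 2 ≤
      (((QB k ×ˢ QB k).filter (fun pq => E z pq.1 pq.2)).card : ℝ) by
    obtain ⟨z, hz⟩ := hsuf
    exact ⟨z, E z, hE z, hz⟩
  -- the number of the pairs
  have h3 : c1 ^ 2 * M * ((QB k).card : ℝ) ^ 2 / R ≤ ∑ m ∈ range M, ((Pm m).card : ℝ) := by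
    have a1 : (∑ m ∈ range M, ((Gm m).card : ℝ)) ^ 2 ≤ M * ∑ m ∈ range M, ((Gm m).card : ℝ) ^ 2 := by
      have := sq_sum_le_card_mul_sum_sq (s := range M) (f := fun m => ((Gm m).card : ℝ))
      rw [card_range] at this
      exact this
    have a2 : (c1 * (M : ℝ) * ((QB k).card : ℝ)) ^ 2 ≤ M * ∑ m ∈ range M, ((Gm m).card : ℝ) ^ 2 :=
      le_trans (pow_le_pow_left₀ (by positivity) hdens 2) a1
    have a3 : ∑ m ∈ range M, ((Gm m).card : ℝ) ^ 2 ≤ R * ∑ m ∈ range M, ((Pm m).card : ℝ) := by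
      rw [mul_sum]
      exact sum_le_sum fun m _ => hPm2 m
    have a4 : (M : ℝ) * (c1 ^ 2 * M * ((QB k).card : ℝ) ^ 2) ≤ M * (R * ∑ m ∈ range M, ((Pm m).card : ℝ)) := by
      refine le_trans (le_of_eq (by ring)) (a2.trans (mul_le_mul_of_nonneg_left a3 hMr.le))
    have a5 := le_of_mul_le_mul_left a4 hMr
    rw [div_le_iff₀ hR0, mul_comm _ (R : ℝ)]
    exact a5
  -- the numbers `z`
  have h4 := blow k M Pm (fun m pq hpq => mem_product.2 ⟨(hGm m _ (hPm1 m pq hpq).1).1, (hGm m _ (hPm1 m pq hpq).2.1).1⟩)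
    E (by
      intro m p q hpq j hj
      obtain ⟨hp, hq, hrel⟩ := hPm1 m (p, q) hpq
      simp only at hp hq hrel
      have hgp := (hGm m p hp).2
      have hgq := (hGm m q hq).2
      have hp0 : 0 < p := (mem_QB.1 (hGm m p hp).1).2.pos
      have hq0 : 0 < q := (mem_QB.1 (hGm m q hq).1).2.pos
      have c1' : (p * q * m + j) / q = p * m + j / q := by
        rw [show p * q * m + j = q * (p * m) + j by ring, Nat.mul_add_div hq0]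
      have c2' : (p * q * m + j) / p = q * m + j / p := by
        rw [show p * q * m + j = p * (q * m) + j by ring, Nat.mul_add_div hp0]
      have c3 : j / q < p := Nat.div_lt_of_lt_mul (by rw [mul_comm]; exact hj)
      have c4 : j / p < q := Nat.div_lt_of_lt_mul hj
      have c5 : 0 ≤ j / q := Nat.zero_le _
      have c6 : 0 ≤ j / p := Nat.zero_le _
      have d1 : bs H s ((p * q * m + j) / q) = bs H s (p * m) := by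
        rw [c1']
        exact bs_mid hH (hSs _ hgp.1) hgp.2.1 (Nat.le_add_right _ _) (by omega)
      have d2 : bs H s ((p * q * m + j) / p) = bs H s (q * m) := by
        rw [c2']
        exact bs_mid hH (hSs _ hgq.1) hgq.2.1 (Nat.le_add_right _ _) (by omega)
      rw [hE, d1, d2]
      exact ⟨⟨hgp.1, hgq.1⟩, m, hrel⟩)
  obtain ⟨Z, hZ⟩ : ∃ Z : ℕ, Z = 4 * (2 ^ k) ^ 2 * M := ⟨_, rfl⟩
  rw [← hZ] at h4
  by_contra hcon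
  push Not at hcon
  have h5 : ∑ z ∈ range Z, (((QB k ×ˢ QB k).filter (fun pq => E z pq.1 pq.2)).card : ℝ) <
      Z * (c1 ^ 2 / (4 * (R : ℝ)) * ((QB k).card : ℝ) ^ 2) := by
    have a1 : (range Z).Nonempty := by
      rw [nonempty_range_iff, hZ]
      have : 0 < 4 * (2 ^ k) ^ 2 * M := by positivity
      omega
    refine lt_of_lt_of_le (sum_lt_sum_of_nonempty a1 fun z _ => hcon z) (le_of_eq ?_)
    rw [sum_const, card_range, nsmul_eq_mul]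
  have h6 : (Z : ℝ) * (c1 ^ 2 / (4 * (R : ℝ)) * ((QB k).card : ℝ) ^ 2) =
      ((2 ^ k : ℕ) : ℝ) ^ 2 * (c1 ^ 2 * M * ((QB k).card : ℝ) ^ 2 / R) := by
    rw [hZ]
    push_cast
    field_simp
  rw [h6] at h5
  have h7 := mul_le_mul_of_nonneg_left h3 (show (0 : ℝ) ≤ ((2 ^ k : ℕ) : ℝ) ^ 2 by positivity)
  linarith

/-- **[PDA]** -/
theorem pda_of (hTU : S_TU) (hPUSH : S_PUSHA) (hBES : S_BESA) : S_PDA := by
  classical
  intro C hC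
  -- reduction to `ε ≤ 1`
  suffices hmain : ∀ ε : ℝ, 0 < ε → ε ≤ 1 → ∃ c δ : ℝ, 0 < c ∧ 0 < δ ∧ ∀ k0 : ℕ, ∃ k1 : ℕ,
      ∀ T : ℕ, ∃ H N0 : ℕ, 1 ≤ H ∧ ∀ N ≥ N0, ∀ f : ℕ → ℂ, Mul1 f → ∀ (ψ : ℕ → ℕ → ℂ) (B : Finset ℕ), B ⊆ Icc 1 N →
      ε * N ≤ (B.card : ℝ) → (∀ n ∈ B, ψ n ∈ C ∧ ε * H ≤ cw f (ψ n) n H) →
      ∃ k h : ℕ, k0 ≤ k ∧ k < k1 ∧ T ≤ h ∧ ∃ (ν : ℕ → ℕ) (D : Finset (ℕ × ℕ)), D ⊆ QB k ×ˢ QB k ∧
        c * ((QB k).card : ℝ) ^ 2 ≤ (D.card : ℝ) ∧ ∀ pq ∈ D, ν pq.1 ∈ B ∧ ν pq.2 ∈ B ∧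
          ∃ m : ℕ, δ * h ≤ pw (fun x => ψ (ν pq.2) (pq.1 * x)) (fun x => ψ (ν pq.1) (pq.2 * x)) m h by
    intro ε hε
    obtain ⟨c, δ, hc, hδ, h1⟩ := hmain (min ε 1) (lt_min hε one_pos) (min_le_right _ _)
    refine ⟨c, δ, hc, hδ, fun k0 => ?_⟩
    obtain ⟨k1, h2⟩ := h1 k0
    refine ⟨k1, fun T => ?_⟩
    obtain ⟨H, N0, hH, h3⟩ := h2 T
    refine ⟨H, N0, hH, fun N hN f hf P B hB hBc hBP => h3 N hN f hf P B hB ?_ fun n hn => ⟨(hBP n hn).1, ?_⟩⟩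
    · exact le_trans (mul_le_mul_of_nonneg_right (min_le_left _ _) (Nat.cast_nonneg _)) hBc
    · exact le_trans (mul_le_mul_of_nonneg_right (min_le_left _ _) (Nat.cast_nonneg _)) (hBP n hn).2
  intro ε hε hε1
  obtain ⟨R', hR'⟩ := hBES (ε / 8) (by positivity)
  obtain ⟨R, hRd⟩ : ∃ R : ℕ, R = R' + 1 := ⟨_, rfl⟩
  have hR : ∀ f : ℕ → ℂ, (∀ n, ‖f n‖ ≤ 1) →
    ∀ (n H r : ℕ) (ψ : Fin r → ℕ → ℂ), 1 ≤ H → (∀ i m, ‖ψ i m‖ ≤ 1) → (∀ i, ε / 8 * H ≤ cw f (ψ i) n H) →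
    (∀ i j, i ≠ j → pw (ψ i) (ψ j) n H ≤ (ε / 8) ^ 2 / 4 * H) → r ≤ R := by
    intro f hf n H r ψ hH h1 h2 h3
    exact (hR' f hf n H r ψ hH h1 h2 h3).trans (by omega)
  have hR1 : 1 ≤ R := by omega
  have hRr : (1 : ℝ) ≤ R := by exact_mod_cast hR1
  obtain ⟨c1, hc1⟩ : ∃ c1 : ℝ, c1 = ε ^ 2 / 512 := ⟨_, rfl⟩
  have hc10 : 0 < c1 := by rw [hc1]; positivity
  refine ⟨c1 ^ 2 / (4 * R), (ε / 8) ^ 2 / 4, by positivity, by positivity, fun k0 => ?_⟩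
  obtain ⟨k1, Hs, hscale⟩ := scaleA hPUSH ε hε k0
  refine ⟨k1, fun T => ?_⟩
  obtain ⟨h, hh⟩ : ∃ h : ℕ, h = max T 1 := ⟨_, rfl⟩
  have hh1 : 1 ≤ h := by rw [hh]; exact le_max_right _ _
  obtain ⟨H', hH'⟩ := exists_nat_ge (64 * (h : ℝ) * 2 ^ k1 / ε)
  refine ⟨Hs + H' + 1, Hs + H' + 1, by omega, fun N hN f hf P B hB hBc hBP => ?_⟩
  obtain ⟨H, hHd⟩ : ∃ H : ℕ, H = Hs + H' + 1 := ⟨_, rfl⟩
  rw [← hHd] at hN hBP
  have hH1 : 1 ≤ H := by omega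
  have hHr : (0 : ℝ) < H := by exact_mod_cast hH1
  -- the residue class
  obtain ⟨s, hs, hsc⟩ : ∃ s ∈ range H, (B.card : ℝ) / H ≤ ((B.filter (fun n => (H - n % H) % H = s)).card : ℝ) := by
    refine exists_le_card_fiber_of_nsmul_le_card_of_maps_to (f := fun n => (H - n % H) % H) ?_ ?_ ?_
    · intro n _
      rw [mem_range]
      exact Nat.mod_lt _ (by omega)
    · rw [nonempty_range_iff]; omega
    · rw [card_range, nsmul_eq_mul, mul_div_cancel₀ _ hHr.ne']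
  set S : Finset ℕ := B.filter (fun n => (H - n % H) % H = s) with hSd
  have hSB : S ⊆ B := filter_subset _ _
  have hSs : ∀ n ∈ S, (n + s) % H = 0 := by
    intro n hn
    have h1 := (mem_filter.1 hn).2
    rw [← h1, Nat.add_mod, Nat.mod_mod, ← Nat.add_mod]
    have h2 := Nat.div_add_mod n H
    have h3 := Nat.mod_lt n (show 0 < H by omega)
    have h4 : n + (H - n % H) = H * (n / H + 1) := by rw [mul_add, mul_one]; omega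
    rw [h4, Nat.mul_mod_right]
  have hSc : ε * N / H ≤ (S.card : ℝ) :=
    le_trans (div_le_div_of_nonneg_right hBc hHr.le) hsc
  have hSP : ∀ n ∈ S, ∀ x, ‖P n x‖ ≤ 1 := fun n hn => hC.1 _ (hBP n (hSB hn)).1
  obtain ⟨k, hk0, hk1, hk⟩ := hscale H (by omega) hH1 f hf P S (fun n hn => ⟨hSP n hn, (hBP n (hSB hn)).2⟩)
  have hHk : 64 * (h : ℝ) * 2 ^ k ≤ ε * H := by
    have h1 : 64 * (h : ℝ) * 2 ^ k1 ≤ ε * H := by
      have h2 : 64 * (h : ℝ) * 2 ^ k1 / ε ≤ H := hH'.trans (by exact_mod_cast (by omega : H' ≤ H))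
      rw [div_le_iff₀ hε] at h2
      linarith
    refine le_trans (mul_le_mul_of_nonneg_left ?_ (by positivity)) h1
    exact pow_le_pow_right₀ (by norm_num) hk1.le
  have hdens := densityA hf.1 P hε hε1 S hSP hSs (fun n hn => (mem_Icc.1 (hB (hSB hn))).2) hSc (by omega) hHk (by omega) hk
  obtain ⟨z, E, hE, hz⟩ := exists_zA hTU (show 0 < ε / 8 by positivity) hR1 hR hf.1 P hc10 (by omega) S hSs hSP hh1
    (Nat.succ_pos (2 * N / 2 ^ k)) (fun m => (QB k).filter (fun p => bs H s (p * m) ∈ S ∧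
        bs H s (p * m + (p - 1)) = bs H s (p * m) ∧ ε / 8 * h ≤ cw f (dl p (P (bs H s (p * m)))) m h))
    (fun m p hp => mem_filter.1 hp) (by rw [hc1]; exact hdens)
  refine ⟨k, h, hk0, hk1, by rw [hh]; exact le_max_left _ _, fun p => bs H s (z / p),
    (QB k ×ˢ QB k).filter (fun pq => E pq.1 pq.2), filter_subset _ _, hz, ?_⟩
  intro pq hpq
  have h1 := (mem_filter.1 hpq).2
  rw [hE] at h1
  obtain ⟨⟨h2, h3⟩, m, h4⟩ := h1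
  exact ⟨hSB h3, hSB h2, m, h4⟩

end Pool.Agent.Run7.h172.Nil
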