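import Pool.Agent.Run7.h172.Nil.Stm
import Pool.Agent.Run7.h172.Npp.PDd
import Pool.Agent.Helper44K9.FN.Fina
import Pool.Agent.Helper44K9.FN.Pusha

/-! # Piece PDA: abstract classes of sequences -/

set_option autoImplicit false

namespace Pool.Agent.Run7.h172.Nil

open Finset Polynomial MeasureTheory Filter Topology
open Pool.Agent.H807R2.Dav (ee)
open Pool.Agent.Helper44K9.FU (Mul1)
open Pool.Agent.Helper44K9.FN (Clos cw pw S_PUSHA S_BESA)
open Pool.Agent.Run7.h172.Npp (QB bs bs_of bs_spec bs_mid mem_QB blocks exists_k1 double_count sub_count blowup)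

/-- dilation of a sequence -/
def dl (p : ℕ) (ψ : ℕ → ℂ) : ℕ → ℂ := fun x => ψ (p * x)

open Classical in
/-- from a window of length `H / p` to windows of length `h` -/
lemma fiberA {f ψ : ℕ → ℂ} (hf : ∀ n, ‖f n‖ ≤ 1) (hψ : ∀ n, ‖ψ n‖ ≤ 1) {ε : ℝ} (hε : 0 < ε) (hε1 : ε ≤ 1)
    {H s n p h M : ℕ}
    (hn : (n + s) % H = 0) (hp : 0 < p) (hh : 0 < h) (hL : 16 * (h : ℝ) ≤ ε * ((H / p : ℕ) : ℝ))
    (hM : n / p + H / p ≤ M) (hc : ε / 2 * ((H / p : ℕ) : ℝ) ≤ cw f ψ (n / p) (H / p)) :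
    ε / 16 * ((H / p : ℕ) : ℝ) ≤ (((range M).filter (fun m => bs H s (p * m) = n ∧ bs H s (p * m + (p - 1)) = n ∧
      ε / 8 * h ≤ cw f ψ m h)).card : ℝ) := by
  obtain ⟨L, hLd⟩ : ∃ L : ℕ, L = H / p := ⟨_, rfl⟩
  rw [← hLd] at hL hM hc ⊢
  have hhr : (1 : ℝ) ≤ h := by exact_mod_cast hh
  have hLr : (0 : ℝ) < L := by
    by_contra hcon
    push Not at hcon
    nlinarith
  have hpL : p * L ≤ H := by rw [hLd]; exact Nat.mul_div_le H p
  -- the good positions
  have h1 : (h : ℝ) * cw f ψ (n / p) L ≤ ∑ i ∈ range L, cw f ψ (n / p + i) h + 2 * (h : ℝ) ^ 2 :=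
    Pool.Agent.Helper44K9.FN.FinaL.sub_window (g := fun m => f m * ψ m) (fun m => by
      rw [norm_mul]; exact mul_le_one₀ (hf m) (norm_nonneg _) (hψ m)) (n / p) L h
  set J : Finset ℕ := (range L).filter (fun i => ε / 8 * h ≤ cw f ψ (n / p + i) h) with hJ
  have h2 : ∑ i ∈ range L, cw f ψ (n / p + i) h ≤ (J.card : ℝ) * h + L * (ε / 8 * h) := by
    rw [← sum_filter_add_sum_filter_not (range L) (fun i => ε / 8 * h ≤ cw f ψ (n / p + i) h)]
    apply add_le_add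
    · calc ∑ i ∈ J, cw f ψ (n / p + i) h ≤ ∑ i ∈ J, (h : ℝ) :=
          sum_le_sum fun i _ => Pool.Agent.Helper44K9.FN.FinaL.cw_le hf hψ _ h
        _ = _ := by rw [sum_const, nsmul_eq_mul]
    · calc ∑ i ∈ (range L).filter (fun i => ¬ ε / 8 * h ≤ cw f ψ (n / p + i) h), cw f ψ (n / p + i) h ≤
          ∑ i ∈ (range L).filter (fun i => ¬ ε / 8 * h ≤ cw f ψ (n / p + i) h), ε / 8 * (h : ℝ) :=
            sum_le_sum fun i hi => (not_le.1 (mem_filter.1 hi).2).le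
        _ ≤ ∑ i ∈ range L, ε / 8 * (h : ℝ) :=
            sum_le_sum_of_subset_of_nonneg (filter_subset _ _) fun _ _ _ => by positivity
        _ = _ := by rw [sum_const, card_range, nsmul_eq_mul]
  have h3 : ε / 8 * L + 1 ≤ (J.card : ℝ) + 1 := by
    have h4 : (h : ℝ) * (ε / 2 * L) ≤ (J.card : ℝ) * h + L * (ε / 8 * h) + 2 * (h : ℝ) ^ 2 := by
      refine le_trans (mul_le_mul_of_nonneg_left hc (by linarith)) (h1.trans ?_)
      linarith
    have h5 : (h : ℝ) * (ε / 8 * L) ≤ h * (J.card : ℝ) := by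
      have h6 : 2 * (h : ℝ) ^ 2 ≤ h * (ε / 8 * L) := by nlinarith
      nlinarith [mul_pos hε hLr]
    have h7 := le_of_mul_le_mul_left h5 (by linarith)
    linarith
  have h4 : ε / 16 * L ≤ ((J.erase 0).card : ℝ) := by
    have h5 : J.card ≤ (J.erase 0).card + 1 := by
      have := pred_card_le_card_erase (s := J) (a := 0)
      omega
    have h6 : (J.card : ℝ) ≤ ((J.erase 0).card : ℝ) + 1 := by exact_mod_cast h5
    have h7 : 1 ≤ ε / 16 * L := by linarith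
    linarith
  refine h4.trans ?_
  have h5 : (J.erase 0).card ≤ ((range M).filter (fun m => bs H s (p * m) = n ∧ bs H s (p * m + (p - 1)) = n ∧
      ε / 8 * h ≤ cw f ψ m h)).card := by
    refine card_le_card_of_injOn (fun i => n / p + i) ?_ ?_
    · intro i hi
      rw [mem_coe, mem_erase, hJ, mem_filter, mem_range] at hi
      obtain ⟨hi0, hiL, hiW⟩ := hi
      rw [mem_coe, mem_filter, mem_range]
      have h6 := Nat.div_add_mod n p
      have h7 := Nat.mod_lt n hp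
      have h8 : p * 1 ≤ p * i := Nat.mul_le_mul_left p (by omega)
      have h9 : p * (i + 1) ≤ p * L := Nat.mul_le_mul_left p (by omega)
      have e1 : p * (n / p + i) = p * (n / p) + p * i := by ring
      have e2 : p * (i + 1) = p * i + p := by ring
      refine ⟨show n / p + i < M by omega, ?_, ?_, hiW⟩
      · show bs H s (p * (n / p + i)) = n
        rw [e1]
        exact bs_of hn (by omega) (by omega)
      · show bs H s (p * (n / p + i) + (p - 1)) = n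
        rw [e1]
        exact bs_of hn (by omega) (by omega)
    · intro i _ j _ hij
      simp only at hij
      omega
  exact_mod_cast h5

open Classical in
/-- **the choice of the scale** -/
lemma scaleA (hPUSH : S_PUSHA) (ε : ℝ) (hε : 0 < ε) (k0 : ℕ) : ∃ k1 H0 : ℕ, ∀ H ≥ H0, 1 ≤ H →
    ∀ f : ℕ → ℂ, Mul1 f → ∀ (P : ℕ → ℕ → ℂ) (S : Finset ℕ), (∀ n ∈ S, (∀ m, ‖P n m‖ ≤ 1) ∧ ε * H ≤ cw f (P n) n H) →
    ∃ k : ℕ, k0 ≤ k ∧ k < k1 ∧ 3 / 8 * (S.card : ℝ) * ((QB k).card : ℝ) ≤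
      ∑ p ∈ QB k, ((S.filter (fun n => ε / 2 * ((H / p : ℕ) : ℝ) ≤ cw f (dl p (P n)) (n / p) (H / p))).card : ℝ) := by
  obtain ⟨kc, hkc⟩ : ∃ kc : ℕ, 16 / ε ≤ (2 : ℝ) ^ kc := by
    obtain ⟨n, hn⟩ := pow_unbounded_of_one_lt (16 / ε) (by norm_num : (1 : ℝ) < 2)
    exact ⟨n, hn.le⟩
  obtain ⟨z, hz⟩ : ∃ z : ℕ, z = max k0 kc := ⟨_, rfl⟩
  obtain ⟨k1, hk1, hA⟩ := exists_k1 z (1600 / ε ^ 2)
  set I : Finset ℕ := (Ioc (2 ^ z) (2 ^ k1)).filter Nat.Prime with hI
  obtain ⟨H0, hH0⟩ := hPUSH I (ε / 2) (by positivity) (by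
    intro p hp
    rw [hI, mem_filter, mem_Ioc] at hp
    refine ⟨hp.2, ?_⟩
    calc 8 / (ε / 2) = 16 / ε := by field_simp; norm_num
      _ ≤ (2 : ℝ) ^ kc := hkc
      _ ≤ (2 : ℝ) ^ z := pow_le_pow_right₀ (by norm_num) (by rw [hz]; exact le_max_right _ _)
      _ ≤ p := by exact_mod_cast hp.1.1.le)
  refine ⟨k1, H0, fun H hH hH1 f hf P S hS => ?_⟩
  have hHr : (0 : ℝ) < H := by exact_mod_cast hH1
  rcases S.eq_empty_or_nonempty with hS0 | hS0
  · have hzk : z < k1 := by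
      by_contra hcon
      push Not at hcon
      have : k1 = z := le_antisymm hcon hk1
      rw [hI, this] at hA
      simp only [Ioc_self, filter_empty, sum_empty] at hA
      have : 0 < 1600 / ε ^ 2 := by positivity
      linarith
    refine ⟨z, by rw [hz]; exact le_max_left _ _, hzk, ?_⟩
    rw [hS0]
    simp
  by_contra hcon
  push Not at hcon
  have hSr : (0 : ℝ) < S.card := by exact_mod_cast hS0.card_pos
  set bad : ℕ → ℕ → Prop := fun n p => cw f (dl p (P n)) (n / p) (H / p) <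
    (cw f (P n) n H / H - ε / 2) * ((H / p : ℕ) : ℝ) with hbad
  -- upper bound
  have h1 : ∑ n ∈ S, ∑ p ∈ I.filter (bad n), 1 / (p : ℝ) ≤ S.card * (400 / ε ^ 2) := by
    calc ∑ n ∈ S, ∑ p ∈ I.filter (bad n), 1 / (p : ℝ) ≤ ∑ n ∈ S, 100 / (ε / 2) ^ 2 := by
          refine sum_le_sum fun n hn => ?_
          have h3 := hH0 H hH f hf (P n) (hS n hn).1 n
          exact h3
      _ = S.card * (400 / ε ^ 2) := by
          rw [sum_const, nsmul_eq_mul]
          congr 1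
          field_simp
          norm_num
  -- lower bound in one block
  have h2 : ∀ k ∈ Ico z k1, 5 / 16 * S.card * ∑ p ∈ QB k, 1 / (p : ℝ) ≤
      ∑ p ∈ QB k, ∑ n ∈ S, if bad n p then 1 / (p : ℝ) else 0 := by
    intro k hk
    rw [mem_Ico] at hk
    have hk0 : k0 ≤ k := le_trans (by rw [hz]; exact le_max_left _ _) hk.1
    have h3 := hcon k hk0 hk.2
    have hy : (0 : ℝ) < (2 : ℝ) ^ k := by positivity
    have h4 : ∀ p ∈ QB k, ((S.card : ℝ) - ((S.filter (fun n => ε / 2 * ((H / p : ℕ) : ℝ) ≤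
        cw f (dl p (P n)) (n / p) (H / p))).card : ℝ)) / (2 * 2 ^ k) ≤
        ∑ n ∈ S, if bad n p then 1 / (p : ℝ) else 0 := by
      intro p hp
      rw [mem_QB] at hp
      have hp1 : (p : ℝ) ≤ 2 * 2 ^ k := by
        have : (p : ℝ) ≤ ((2 ^ (k + 1) : ℕ) : ℝ) := by exact_mod_cast hp.1.2
        rw [pow_succ] at this
        push_cast at this
        linarith
      have hp0 : (0 : ℝ) < p := by exact_mod_cast hp.2.pos
      have h5 : (S.filter (fun n => ¬ ε / 2 * ((H / p : ℕ) : ℝ) ≤ cw f (dl p (P n)) (n / p) (H / p))) ⊆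
          S.filter (fun n => bad n p) := by
        intro n hn
        rw [mem_filter] at hn ⊢
        refine ⟨hn.1, ?_⟩
        have h6 := not_le.1 hn.2
        refine lt_of_lt_of_le h6 ?_
        apply mul_le_mul_of_nonneg_right _ (Nat.cast_nonneg _)
        have h7 : ε ≤ cw f (P n) n H / H := by
          rw [le_div_iff₀ hHr]
          exact (hS n hn.1).2
        linarith
      have h6 := card_filter_add_card_filter_not (s := S) (fun n => ε / 2 * ((H / p : ℕ) : ℝ) ≤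
        cw f (dl p (P n)) (n / p) (H / p))
      have h7 := card_le_card h5
      have h8 : (S.card : ℝ) - ((S.filter (fun n => ε / 2 * ((H / p : ℕ) : ℝ) ≤
        cw f (dl p (P n)) (n / p) (H / p))).card : ℝ) ≤ ((S.filter (fun n => bad n p)).card : ℝ) := by
        rw [sub_le_iff_le_add]
        exact_mod_cast (by omega : S.card ≤ (S.filter (fun n => bad n p)).card + (S.filter (fun n =>
          ε / 2 * ((H / p : ℕ) : ℝ) ≤ cw f (dl p (P n)) (n / p) (H / p))).card)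
      rw [← sum_filter, sum_const, nsmul_eq_mul, mul_one_div]
      calc _ ≤ ((S.filter (fun n => bad n p)).card : ℝ) / (2 * 2 ^ k) := div_le_div_of_nonneg_right h8 (by positivity)
        _ ≤ _ := div_le_div_of_nonneg_left (Nat.cast_nonneg _) hp0 hp1
    have h5 : ∑ p ∈ QB k, 1 / (p : ℝ) ≤ (QB k).card / 2 ^ k := by
      calc ∑ p ∈ QB k, 1 / (p : ℝ) ≤ ∑ p ∈ QB k, 1 / (2 : ℝ) ^ k := by
            refine sum_le_sum fun p hp => ?_
            rw [mem_QB] at hp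
            apply one_div_le_one_div_of_le hy
            exact_mod_cast hp.1.1.le
        _ = _ := by rw [sum_const, nsmul_eq_mul, mul_one_div]
    calc 5 / 16 * S.card * ∑ p ∈ QB k, 1 / (p : ℝ) ≤ 5 / 16 * S.card * ((QB k).card / 2 ^ k) :=
          mul_le_mul_of_nonneg_left h5 (by positivity)
      _ = (S.card * (QB k).card - 3 / 8 * (S.card : ℝ) * (QB k).card) / (2 * 2 ^ k) := by field_simp; ring
      _ ≤ (S.card * (QB k).card - ∑ p ∈ QB k, ((S.filter (fun n => ε / 2 * ((H / p : ℕ) : ℝ) ≤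
            cw f (dl p (P n)) (n / p) (H / p))).card : ℝ)) / (2 * 2 ^ k) := by
          apply div_le_div_of_nonneg_right _ (by positivity)
          linarith
      _ = ∑ p ∈ QB k, ((S.card : ℝ) - ((S.filter (fun n => ε / 2 * ((H / p : ℕ) : ℝ) ≤
            cw f (dl p (P n)) (n / p) (H / p))).card : ℝ)) / (2 * 2 ^ k) := by
          rw [← sum_div, sum_sub_distrib, sum_const, nsmul_eq_mul]
          congr 2
          ring
      _ ≤ _ := sum_le_sum h4
  have h3 : 5 / 16 * S.card * (1600 / ε ^ 2) ≤ ∑ n ∈ S, ∑ p ∈ I.filter (bad n), 1 / (p : ℝ) := by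
    calc 5 / 16 * S.card * (1600 / ε ^ 2) ≤ 5 / 16 * S.card * ∑ p ∈ I, 1 / (p : ℝ) :=
          mul_le_mul_of_nonneg_left hA (by positivity)
      _ = ∑ k ∈ Ico z k1, 5 / 16 * S.card * ∑ p ∈ QB k, 1 / (p : ℝ) := by
          rw [hI, blocks _ z k1 hk1, mul_sum]
      _ ≤ ∑ k ∈ Ico z k1, ∑ p ∈ QB k, ∑ n ∈ S, (if bad n p then 1 / (p : ℝ) else 0) := sum_le_sum h2
      _ = ∑ p ∈ I, ∑ n ∈ S, (if bad n p then 1 / (p : ℝ) else 0) := by
          rw [hI, blocks _ z k1 hk1]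
      _ = ∑ n ∈ S, ∑ p ∈ I.filter (bad n), 1 / (p : ℝ) := by
          rw [sum_comm]
          exact sum_congr rfl fun n _ => (sum_filter (bad n) (fun p : ℕ => 1 / (p : ℝ))).symm
  have h4 := h3.trans h1
  have h5 : 5 / 16 * (S.card : ℝ) * (1600 / ε ^ 2) = 500 * (S.card / ε ^ 2) := by ring
  have h6 : (S.card : ℝ) * (400 / ε ^ 2) = 400 * (S.card / ε ^ 2) := by ring
  have h7 : 0 < (S.card : ℝ) / ε ^ 2 := by positivity
  rw [h5, h6] at h4
  linarith

open Classical in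
/-- many windows of length `h` at which dilated phases correlate -/
lemma densityA {f : ℕ → ℂ} (hf : ∀ n, ‖f n‖ ≤ 1) (P : ℕ → ℕ → ℂ) {ε : ℝ} (hε : 0 < ε) (hε1 : ε ≤ 1) {H s h N k : ℕ}
    (S : Finset ℕ) (hSP : ∀ n ∈ S, ∀ m, ‖P n m‖ ≤ 1) (hSs : ∀ n ∈ S, (n + s) % H = 0) (hSN : ∀ n ∈ S, n ≤ N)
    (hS : ε * N / H ≤ (S.card : ℝ))
    (hh : 0 < h) (hHk : 64 * h * 2 ^ k ≤ ε * H) (hHN : H ≤ N)
    (hk : 3 / 8 * (S.card : ℝ) * ((QB k).card : ℝ) ≤
      ∑ p ∈ QB k, ((S.filter (fun n => ε / 2 * ((H / p : ℕ) : ℝ) ≤ cw f (dl p (P n)) (n / p) (H / p))).card : ℝ)) :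
    ε ^ 2 / 512 * ((2 * N / 2 ^ k + 1 : ℕ) : ℝ) * ((QB k).card : ℝ) ≤
      ∑ m ∈ range (2 * N / 2 ^ k + 1), (((QB k).filter (fun p => bs H s (p * m) ∈ S ∧
        bs H s (p * m + (p - 1)) = bs H s (p * m) ∧ ε / 8 * h ≤ cw f (dl p (P (bs H s (p * m)))) m h)).card : ℝ) := by
  obtain ⟨M, hM⟩ : ∃ M : ℕ, M = 2 * N / 2 ^ k + 1 := ⟨_, rfl⟩
  rw [← hM]
  have hhr : (1 : ℝ) ≤ h := by exact_mod_cast hh
  have hy : (0 : ℝ) < (2 : ℝ) ^ k := by positivity
  have hy1 : (1 : ℝ) ≤ (2 : ℝ) ^ k := one_le_pow₀ (by norm_num)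
  have hHr : 64 * (2 : ℝ) ^ k ≤ H := by
    have h1 : 64 * 2 ^ k ≤ 64 * (h : ℝ) * 2 ^ k := by nlinarith
    have h2 : ε * H ≤ 1 * (H : ℝ) := mul_le_mul_of_nonneg_right hε1 (Nat.cast_nonneg _)
    linarith
  have hH0 : (0 : ℝ) < H := by linarith
  have hHpos : 0 < H := by exact_mod_cast hH0
  have hHN' : (H : ℝ) ≤ N := by exact_mod_cast hHN
  -- exchange the sums
  have e1 : ∑ m ∈ range M, (((QB k).filter (fun p => bs H s (p * m) ∈ S ∧
        bs H s (p * m + (p - 1)) = bs H s (p * m) ∧ ε / 8 * h ≤ cw f (dl p (P (bs H s (p * m)))) m h)).card : ℝ) =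
      ∑ p ∈ QB k, (((range M).filter (fun m => bs H s (p * m) ∈ S ∧
        bs H s (p * m + (p - 1)) = bs H s (p * m) ∧ ε / 8 * h ≤ cw f (dl p (P (bs H s (p * m)))) m h)).card : ℝ) := by
    exact double_count (range M) (QB k) (fun m p => bs H s (p * m) ∈ S ∧
        bs H s (p * m + (p - 1)) = bs H s (p * m) ∧ ε / 8 * h ≤ cw f (dl p (P (bs H s (p * m)))) m h)
  rw [e1]
  -- one prime
  have h1 : ∀ p ∈ QB k, ε / 16 * (H / (4 * 2 ^ k)) *
      ((S.filter (fun n => ε / 2 * ((H / p : ℕ) : ℝ) ≤ cw f (dl p (P n)) (n / p) (H / p))).card : ℝ) ≤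
      (((range M).filter (fun m => bs H s (p * m) ∈ S ∧
        bs H s (p * m + (p - 1)) = bs H s (p * m) ∧ ε / 8 * h ≤ cw f (dl p (P (bs H s (p * m)))) m h)).card : ℝ) := by
    intro p hp
    rw [mem_QB] at hp
    have hp0 : 0 < p := hp.2.pos
    have hpr : (0 : ℝ) < p := by exact_mod_cast hp0
    have hp2 : (p : ℝ) ≤ 2 * 2 ^ k := by
      have : (p : ℝ) ≤ ((2 ^ (k + 1) : ℕ) : ℝ) := by exact_mod_cast hp.1.2
      rw [pow_succ] at this
      push_cast at this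
      linarith
    have hL : (H : ℝ) / (4 * 2 ^ k) ≤ ((H / p : ℕ) : ℝ) := by
      have a1 : (H : ℝ) < p * (((H / p : ℕ) : ℝ) + 1) := by
        have := Nat.lt_mul_div_succ H hp0
        exact_mod_cast this
      have a2 : (H : ℝ) < 2 * 2 ^ k * (((H / p : ℕ) : ℝ) + 1) :=
        a1.trans_le (mul_le_mul_of_nonneg_right hp2 (by positivity))
      rw [div_le_iff₀ (by positivity)]
      nlinarith
    have hL2 : 16 * (h : ℝ) ≤ ε * ((H / p : ℕ) : ℝ) := by
      have a1 : 16 * (h : ℝ) = 64 * h * 2 ^ k / (4 * 2 ^ k) := by field_simp; norm_num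
      rw [a1]
      calc 64 * (h : ℝ) * 2 ^ k / (4 * 2 ^ k) ≤ ε * H / (4 * 2 ^ k) := div_le_div_of_nonneg_right hHk (by positivity)
        _ = ε * (H / (4 * 2 ^ k)) := by ring
        _ ≤ _ := mul_le_mul_of_nonneg_left hL hε.le
    set Sp := S.filter (fun n => ε / 2 * ((H / p : ℕ) : ℝ) ≤ cw f (dl p (P n)) (n / p) (H / p)) with hSp
    have h2 : ∀ n ∈ Sp, ε / 16 * (H / (4 * 2 ^ k)) ≤ (((range M).filter (fun m => bs H s (p * m) = n ∧
        bs H s (p * m + (p - 1)) = n ∧ ε / 8 * h ≤ cw f (dl p (P n)) m h)).card : ℝ) := by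
      intro n hn
      rw [hSp, mem_filter] at hn
      refine le_trans (mul_le_mul_of_nonneg_left hL (by positivity)) ?_
      refine fiberA hf (ψ := dl p (P n)) (fun m => hSP n hn.1 _) hε hε1 (hSs n hn.1) hp0 hh hL2 ?_ hn.2
      have a1 : n / p + H / p ≤ 2 * N / p := by
        have b1 : n / p + H / p ≤ (n + H) / p := Nat.div_add_div_le_add_div
        exact b1.trans (Nat.div_le_div_right (by have := hSN n hn.1; omega))
      have a2 : 2 * N / p ≤ 2 * N / 2 ^ k := Nat.div_le_div_left hp.1.1.le (by positivity)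
      omega
    have h3 : ∑ n ∈ Sp, (((range M).filter (fun m => bs H s (p * m) = n ∧
        bs H s (p * m + (p - 1)) = n ∧ ε / 8 * h ≤ cw f (dl p (P n)) m h)).card : ℝ) ≤
        (((range M).filter (fun m => bs H s (p * m) ∈ S ∧
        bs H s (p * m + (p - 1)) = bs H s (p * m) ∧ ε / 8 * h ≤ cw f (dl p (P (bs H s (p * m)))) m h)).card : ℝ) := by
      rw [← Nat.cast_sum, ← card_biUnion]
      · refine Nat.cast_le.2 (card_le_card ?_)
        intro m hm
        rw [mem_biUnion] at hm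
        obtain ⟨n, hn, hm⟩ := hm
        rw [mem_filter] at hm ⊢
        obtain ⟨m1, m2, m3, m4⟩ := hm
        rw [m2]
        exact ⟨m1, (mem_filter.1 hn).1, m3, m4⟩
      · intro a _ b _ hab
        show Disjoint _ _
        rw [disjoint_left]
        intro x hx hy'
        rw [mem_filter] at hx hy'
        exact hab (hx.2.1.symm.trans hy'.2.1)
    refine le_trans ?_ h3
    calc ε / 16 * (H / (4 * 2 ^ k)) * (Sp.card : ℝ) = ∑ n ∈ Sp, ε / 16 * (H / (4 * 2 ^ k)) := by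
          rw [sum_const, nsmul_eq_mul]; ring
      _ ≤ _ := sum_le_sum h2
  have h2 : ε / 16 * (H / (4 * 2 ^ k)) * (3 / 8 * (S.card : ℝ) * ((QB k).card : ℝ)) ≤
      ∑ p ∈ QB k, (((range M).filter (fun m => bs H s (p * m) ∈ S ∧
        bs H s (p * m + (p - 1)) = bs H s (p * m) ∧ ε / 8 * h ≤ cw f (dl p (P (bs H s (p * m)))) m h)).card : ℝ) := by
    refine le_trans (mul_le_mul_of_nonneg_left hk (by positivity)) ?_
    rw [mul_sum]
    exact sum_le_sum h1
  refine le_trans ?_ h2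
  have h3 : (M : ℝ) ≤ 3 * N / 2 ^ k := by
    have a1 : ((2 * N / 2 ^ k : ℕ) : ℝ) ≤ 2 * N / 2 ^ k := by
      have := @Nat.cast_div_le ℝ _ _ _ (2 * N) (2 ^ k)
      push_cast at this
      exact this
    have a2 : (1 : ℝ) ≤ N / 2 ^ k := by
      rw [le_div_iff₀ hy]; linarith
    rw [hM]
    push_cast
    have e : 3 * (N : ℝ) / 2 ^ k = 2 * N / 2 ^ k + N / 2 ^ k := by ring
    rw [e]
    linarith
  calc ε ^ 2 / 512 * (M : ℝ) * ((QB k).card : ℝ) ≤ ε ^ 2 / 512 * (3 * N / 2 ^ k) * ((QB k).card : ℝ) := by gcongr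
    _ = ε / 16 * (H / (4 * 2 ^ k)) * (3 / 8 * (ε * N / H) * ((QB k).card : ℝ)) := by field_simp; ring
    _ ≤ ε / 16 * (H / (4 * 2 ^ k)) * (3 / 8 * (S.card : ℝ) * ((QB k).card : ℝ)) := by gcongr

end Pool.Agent.Run7.h172.Nil
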