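import Pool.Agent.Run7.h172.Npp.Stm
import Pool.Agent.Helper44K9.FN.Asm
import Pool.Agent.Helper44K9.FN.Inv
import Pool.Agent.Helper44K9.FN.MeanStm

/-!
# Project NIL (helper172): natural averages for two-step nilmanifolds

GOAL (hard pages MP_663568_nt and MP_54969a_nt).  The starting result MP_663568_nt.TwoStepNilmanifolds with NATURAL
instead of logarithmic averages: `G = ℝ^d × ℝ^c` two-step, `E` a compact set in the horizontal torus such that `k · E` is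
a null set of irrational numbers for all integer vectors `k ≠ 0`, `F` continuous on `G/Γ`:
`∑_{n ≤ N} sup |∑_{h ≤ H} F(g^(n+h) y) μ(n+h)| ≤ ε H N` for `N ≥ H ≥ H₀`, the supremum over all `g` with horizontal part
in `E` and all `y`; then Möbius disjointness (natural averages) for the topological systems whose invariant measures
come from families of two-step nilrotations with singular frequencies.
Definitions are those of `Helper44K9/FN/Stm.lean` (`Cl, Tg, cw, pw, Th, Rl, sT, ...`) and of `Run7/h172/Npp/Stm.lean`.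

Outline.  [PDA]: as [PD] of project NPP, for an arbitrary class of bounded sequences closed under dilations, with
the relation `correlation at least δ`: if many windows `n` have a sequence `ψ_n` which correlates with `f`, there are a
scale `k` and numbers `ν(p)`, such that for a positive proportion of the pairs `p, q` of primes of `QB k` the sequences
`ψ_{ν q}(p x)` and `ψ_{ν p}(q x)` correlate on a window of length `h`.  [INVK] (FN.inv with explicit `κ₀`) and [CNT] turn this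
into `ζ · (p α_q) ≈ ζ' · (q α_p)` for one pair `ζ ≠ 0, ζ'` of bounded integer vectors and a positive proportion of the
`(p, q)`; [GRN] gives `p0, p1` and many `q`; the pieces RD and LD of project NPP give a contradiction.
-/

set_option autoImplicit false

namespace Pool.Agent.Run7.h172.Nil

open Finset Polynomial MeasureTheory Filter Topology
open Pool.Agent.H807R2.Dav (ee)
open Pool.Agent.Helper44K9.FU (Mul1 Rel)
open Pool.Agent.Helper44K9.FB (lf)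
open Pool.Agent.Helper44K9.FN (Clos cw pw Cl Tg Th Rl Box dt sT Irr nSup meanF vb mulG cst)
open Pool.Agent.Helper44K9.FN.InvL (col)
open Pool.Agent.Run7.h172.Npp (QB)

open Classical in
/-- [TU] (40 lines; elementary Turán.)  Induction on `#G`: let `U ⊆ G` be an independent set of maximal cardinality, so
`#U ≤ R` and each `p ∈ G \ U` is related to some element of `U`.  Let `n = #G`, `u = #U`, `e(G)` the number of the
pairs.  Then `e(G) ≥ e(G \ U) + u + 2 (n - u)` (loops on `U`, and for each `p ∈ G \ U` two pairs `(p, v), (v, p)`), and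
`R e(G) ≥ (n - u)² + R (2n - u) ≥ (n - u)² + u (2n - u) = n²`.  Compare `graph_pairs` in `Run7/h172/Npp/PDa.lean`. -/
def S_TU : Prop := ∀ (G : Finset ℕ) (ρ : ℕ → ℕ → Prop), (∀ p q, ρ p q → ρ q p) → ∀ R : ℕ,
  (∀ U ⊆ G, (∀ p ∈ U, ∀ q ∈ U, p ≠ q → ¬ ρ p q) → U.card ≤ R) →
  G.card ^ 2 ≤ R * ((G ×ˢ G).filter (fun pq : ℕ × ℕ => pq.1 = pq.2 ∨ ρ pq.1 pq.2)).card

open Classical in
/-- [GRN] (40 lines.)  `d(q) = #{p : E p q}`; by Cauchy-Schwarz `∑_q d(q)² ≥ c² n³`, `n = #Q`, and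
`∑_q d(q)² = ∑_{p0, p1} #{q : E p0 q ∧ E p1 q}`; the pairs `p0 = p1` contribute at most `n²`, so some `p0 ≠ p1` have at
least `c² n - 1` common `q`, and `c² n - 3 ≥ c² n / 8` of them are different from `p0` and `p1` (`n ≥ 4 / c²`).
Compare `sG` in `Run7/h824/Nls/GR.lean` (the symmetric case). -/
def S_GRN : Prop := ∀ (Q : Finset ℕ) (E : ℕ → ℕ → Prop) (c : ℝ), 0 < c → c ≤ 1 → 4 / c ^ 2 ≤ (Q.card : ℝ) →
  c * (Q.card : ℝ) ^ 2 ≤ (((Q ×ˢ Q).filter (fun pq : ℕ × ℕ => E pq.1 pq.2)).card : ℝ) →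
  ∃ p0 ∈ Q, ∃ p1 ∈ Q, p0 ≠ p1 ∧
    c ^ 2 / 8 * (Q.card : ℝ) ≤ ((Q.filter (fun q => q ≠ p0 ∧ q ≠ p1 ∧ E p0 q ∧ E p1 q)).card : ℝ)

/-- [INVK] `S_AFF → S_INVK`: copy of `Helper44K9.FN.inv` (FN/Inv.lean), where the hypothesis on `α` is explicit and
`j` is any index. -/
def S_INVK : Prop := ∀ (d : ℕ) (b : Matrix (Fin d) (Fin d) ℤ) (j : Fin d) (S : Finset (Fin d → ℤ)) (C c κ₀ : ℝ),
  0 < C → 0 < c → 0 < κ₀ → ∃ K H₀ : ℕ, 1 ≤ K ∧ ∀ H ≥ H₀, ∀ α ∈ Box d, ∀ β ∈ Box d,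
  (∀ s : ℕ, 1 ≤ s → s ≤ ⌈4 / c⌉₊ → ∀ a : ℤ, κ₀ ≤ |s * dt (col b j) α - a|) → Rl b S C c α β H →
  ∃ ζ ζ' : Fin d → ℤ, ζ ≠ 0 ∧ (∀ i, |ζ i| ≤ K) ∧ (∀ i, |ζ' i| ≤ K) ∧ ∃ a : ℤ, |dt ζ α - dt ζ' β - a| ≤ K / H

open Classical in
/-- [CNT] (40 lines, from `Run7/h651/NPP/LD1.lean`.)  The proof of `ld1_of` there does not use the hypothesis
`∀ x ∈ E, addOrderOf x = 0`; copy it without this hypothesis (S_LD1'), and apply it to the set `{0}`, `d = 1`, `K = S₀`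
(or `max S₀ 1`), `c = η`: if more than `η #QB k` of the `p` are bad (take `κ₀ = τ`), there is `q ≤ Q` with
`|q γ - a| ≤ Q / 2^k`, which contradicts `Helper44K9.FU.kap` for `k ≥ k0`. -/
def S_CNT : Prop := ∀ E : Set UnitAddCircle, IsCompact E → (∀ x ∈ E, addOrderOf x = 0) → ∀ S₀ : ℕ, ∀ η : ℝ, 0 < η →
  ∃ κ₀ : ℝ, 0 < κ₀ ∧ ∃ k0 : ℕ, ∀ k ≥ k0, ∀ γ : ℝ, (γ : UnitAddCircle) ∈ E →
    (((QB k).filter (fun p : ℕ => ∃ s : ℕ, 1 ≤ s ∧ s ≤ S₀ ∧ ∃ a : ℤ, |s * (p * γ) - a| < κ₀)).card : ℝ) ≤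
      η * ((QB k).card : ℝ)

/-- [PDA] (helper172) -/
def S_PDA : Prop := ∀ C : Set (ℕ → ℂ), Clos C → ∀ ε : ℝ, 0 < ε → ∃ c δ : ℝ, 0 < c ∧ 0 < δ ∧ ∀ k0 : ℕ, ∃ k1 : ℕ,
  ∀ T : ℕ, ∃ H N0 : ℕ, 1 ≤ H ∧ ∀ N ≥ N0, ∀ f : ℕ → ℂ, Mul1 f → ∀ (ψ : ℕ → ℕ → ℂ) (B : Finset ℕ), B ⊆ Icc 1 N →
  ε * N ≤ (B.card : ℝ) → (∀ n ∈ B, ψ n ∈ C ∧ ε * H ≤ cw f (ψ n) n H) →
  ∃ k h : ℕ, k0 ≤ k ∧ k < k1 ∧ T ≤ h ∧ ∃ (ν : ℕ → ℕ) (D : Finset (ℕ × ℕ)), D ⊆ QB k ×ˢ QB k ∧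
    c * ((QB k).card : ℝ) ^ 2 ≤ (D.card : ℝ) ∧ ∀ pq ∈ D, ν pq.1 ∈ B ∧ ν pq.2 ∈ B ∧
      ∃ m : ℕ, δ * h ≤ pw (fun x => ψ (ν pq.2) (pq.1 * x)) (fun x => ψ (ν pq.1) (pq.2 * x)) m h

open Classical in
/-- [ONE] (helper172) one length of the windows, two-step nilsequences -/
def S_ONE : Prop := ∀ (d : ℕ) (b : Matrix (Fin d) (Fin d) ℤ) (φ : (Fin d → ℝ) → ℂ), Th b φ → b.transpose ≠ b →
  ∀ E : Set (Fin d → UnitAddCircle), IsCompact E → Irr E → (∀ k : Fin d → ℤ, k ≠ 0 → volume (lf k '' E) = 0) →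
  ∀ ε : ℝ, 0 < ε → ∃ H N0 : ℕ, 1 ≤ H ∧ ∀ N ≥ N0, ∀ f : ℕ → ℂ, Mul1 f →
    (((Icc 1 N).filter (fun n => ∃ ψ ∈ Cl φ (Tg E), ε * H ≤ cw f ψ n H)).card : ℝ) ≤ ε * N

open Classical in
/-- [ALLN] (100 lines) from one length to all lengths: copy of `good_of` in `Run7/h172/Npp/Main.lean` (its second half),
with a class `T` of sequences instead of the polynomial phases; for `sub_window` see the proof in
`Helper44K9/FU/Fin.lean` (`FL.sub_window`, `FL.shift`), or the generic version in `Helper44K9/FN/Fina.lean`. -/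
def S_ALLN : Prop := ∀ T : Set (ℕ → ℂ), (∀ ψ ∈ T, ∀ m, ‖ψ m‖ ≤ 1) →
  (∀ ε : ℝ, 0 < ε → ∃ H N0 : ℕ, 1 ≤ H ∧ ∀ N ≥ N0, ∀ f : ℕ → ℂ, Mul1 f →
    (((Icc 1 N).filter (fun n => ∃ ψ ∈ T, ε * H ≤ cw f ψ n H)).card : ℝ) ≤ ε * N) →
  ∀ ε : ℝ, 0 < ε → ∃ H₀ : ℕ, ∀ f : ℕ → ℂ, Mul1 f → ∀ N H : ℕ, H₀ ≤ H → H ≤ N →
    ∑ n ∈ Icc 1 N, sT T f n H ≤ ε * H * N

/-- natural averages for the nonzero vertical characters (from [ONE] and [ALLN]) -/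
def S_VPN : Prop := ∀ (d : ℕ) (b : Matrix (Fin d) (Fin d) ℤ) (φ : (Fin d → ℝ) → ℂ), Th b φ → b.transpose ≠ b →
  ∀ E : Set (Fin d → UnitAddCircle), IsCompact E → Irr E → (∀ k : Fin d → ℤ, k ≠ 0 → volume (lf k '' E) = 0) →
  ∀ ε : ℝ, 0 < ε → ∃ H₀ : ℕ, ∀ f : ℕ → ℂ, Mul1 f → ∀ N H : ℕ, H₀ ≤ H → H ≤ N →
    ∑ n ∈ Icc 1 N, sT (Cl φ (Tg E)) f n H ≤ ε * H * N

/-- [ASMN] (250 lines, almost verbatim) `S_VPN → S_ASMN`: copy of `Helper44K9.FN.asmG` (FN/AsmG.lean) with natural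
averages: `vert_part` is replaced by `S_VPN`, `fb` by `Run7.h172.Npp.fbN` (Run7/h172/Npp/Aff.lean), `RED, ORB, VERT, MEAN`
are `Helper44K9.FN.{red, orb, vert, mean}` (see the end of `Results/MP_663568_nt/TwoStepNilmanifolds.lean`, theorem
`windows`). -/
def S_ASMN : Prop := ∀ (d c : ℕ) (β : Fin c → Matrix (Fin d) (Fin d) ℤ),
  (∀ k : Fin c → ℤ, k ≠ 0 → (vb β k).transpose ≠ vb β k) → ∀ F : (Fin d → ℝ) × (Fin c → ℝ) → ℂ, Continuous F →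
  (∀ (g : (Fin d → ℝ) × (Fin c → ℝ)) (m : Fin d → ℤ) (j : Fin c → ℤ), F (mulG β g (cst m, cst j)) = F g) →
  ∀ E : Set (Fin d → UnitAddCircle), IsCompact E → Irr E → (∀ k : Fin d → ℤ, k ≠ 0 → volume (lf k '' E) = 0) →
  ∀ ε : ℝ, 0 < ε → ∃ H₀ : ℕ, ∀ f : ℕ → ℂ, Mul1 f → ∀ N H : ℕ, H₀ ≤ H → H ≤ N →
    ∑ n ∈ Icc 1 N, nSup β (fun z => F z - meanF F) E f n H ≤ ε * H * N

end Pool.Agent.Run7.h172.Nil
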