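import Pool.Agent.Run7.h172.Dyn.Main
import Pool.Agent.Helper44K9.FS.Fac

/-!
# Project NIL (helper172): the criterion for disjointness with natural averages

Pieces [CRIT] and [FACN]. `ClusterPoint` is defined in `Run7/h172/Dyn/Main.lean`, `Win` in `Helper44K9/FS/Fac.lean`.

[CRIT] (universe polymorphic theorem, 250 lines; adapt `keyP`, `mainA`, `mainB` in `Run7/h172/Dyn/{Key,Main}.lean`, where
the windows are trigonometric polynomials; here they are the elements of an arbitrary set `W`, and there is no `θ`):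

  theorem crit {X : Type*} [MetricSpace X] [CompactSpace X] [MeasurableSpace X] [BorelSpace X] {T : X → X}
      (hT : Continuous T) (u : ℕ → ℂ) (hu : ∀ n, ‖u n‖ ≤ 1) (f : C(X, ℂ)) :
      (∀ P : Set X, (∀ ν : Measure X, IsProbabilityMeasure ν → MeasurePreserving T ν ν → ClusterPoint T P ν →
        NearWin T ν f u) → ∀ ε : ℝ, 0 < ε → ∃ N0 : ℕ, ∀ N ≥ N0, ∀ x ∈ P, ‖∑ n ∈ Icc 1 N, u n * f (T^[n] x)‖ ≤ ε * N) ∧
      ((∀ ν : Measure X, IsProbabilityMeasure ν → MeasurePreserving T ν ν → NearWin T ν f u) → ∀ ε : ℝ, 0 < ε →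
        ∃ H0 : ℕ, ∀ H ≥ H0, ∀ N ≥ H, ∀ y : ℕ → X,
          ∑ n ∈ range N, ‖∑ m ∈ Ioc n (n + H), u m * f (T^[m] (y n))‖ ≤ ε * H * N)

Proof: as `keyP`. Fix the window length `L` (the `H₀` of `MomoN` for a small `ε₂`), `Δ(x) = inf_{w ∈ W ∪ {0}}
∑_{1 ≤ i ≤ L} ‖f(T^i x) - w i‖`, a continuous function of `x` (`Metric.infDist` of the vector `(f(T^i x))_i` to a set, as `DD`
in Gen.lean, `PiLp 1`), `∫ Δ dν ≤ ε' L + ε' ‖f‖ L` by `NearWin`, so the mean of `Δ` over the segments is small by `exists_nu2`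
(hypothesis `hlim`); for each `r` the sum over the window `(r, r + L]` of `u(r+i) f(T^(r+i) y_n)` differs by at most
`Δ(T^r y_n) + δ` from `∑ u(r+i) w(i)`, `w ∈ W ∪ {0}`, which is at most `‖∑ u(r+i) w_r(i)‖ + δ'`, `w_r ∈ W ∪ {0}` a near
maximizer (cf. `near_max`; if there is no finite supremum over `W` for some `r`, note that `MomoN` with `N` large and the
choice `w_r` at one `n = r`, `0` elsewhere bounds it), and `MomoN` bounds the sum over `r ≤ N + H` of the last terms.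

[FACN] natural version of `Helper44K9.FS.fac` (FS/Fac.lean): the same statement and proof with `MomoN` in place of `Momo`
(`MomoN.union`, `MomoN.biUnion`, `MomoN.empty` as there).
-/

set_option autoImplicit false

namespace Pool.Agent.Run7.h172.Nil

open Finset MeasureTheory Filter Topology

/-- the sums of `u` with windows from `W` are small, natural averages -/
def MomoN (u : ℕ → ℂ) (W : Set (ℕ → ℂ)) : Prop := ∀ ε : ℝ, 0 < ε → ∃ H₀ : ℕ, ∀ N H : ℕ, H₀ ≤ H → H ≤ N →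
  ∀ w : ℕ → ℕ → ℂ, (∀ n, w n ∈ W ∨ w n = 0) →
    ∑ n ∈ Icc 1 N, ‖∑ h ∈ Icc 1 H, u (n + h) * w n h‖ ≤ ε * H * N

/-- up to `ε` the windows of `ν`-most points are near windows for which the sums of `u` are small -/
def NearWin {X : Type*} [MetricSpace X] [MeasurableSpace X] (T : X → X) (ν : Measure X) (f : C(X, ℂ)) (u : ℕ → ℂ) :
    Prop := ∀ ε : ℝ, 0 < ε → ∃ W : Set (ℕ → ℂ), MomoN u W ∧ ∀ H : ℕ, 1 ≤ H →
  ENNReal.ofReal (1 - ε) ≤ ν {y | ∃ w ∈ W, ∑ h ∈ Icc 1 H, ‖f (T^[h] y) - w h‖ < ε * H}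

end Pool.Agent.Run7.h172.Nil
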